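import Pool.Agent.Strip051.Box.C2
import Pool.Agent.Strip051.Box.S30
import Pool.Agent.Strip051.LB.Fc.F2

/-! # LINE tight chart ChA03V2_pm_001 -/

namespace Pool.Agent.Strip051.LB.ChA03V2_pm_001

open Pool.Agent.Strip051.Box Pool.Agent.Strip051.Box2

open Pool.Agent.Strip051.LB.Fc Pool.Agent.Strip051.LB.Fc.F2 Pool.Agent.Strip051.LB.Fn Pool.Agent.Strip051.LB.Fn.F2

/-- coordinates of a point of the box -/
def In (b : Bx) (E : Pt) (x1 x2 : ℝ) : Prop :=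
  (S : ℝ) * x1 = ((b.p1 : ℝ) - b.n1) + b.q1 * E.e1 ∧ (S : ℝ) * x2 = ((b.p2 : ℝ) - b.n2) + b.q2 * E.e2

variable {b : Bx} {E : Pt} {x1 x2 : ℝ}

def t0 (b : Bx) : TM := X1 b
noncomputable def v0 (x1 _x2 : ℝ) : ℝ := x1
theorem h0 (h : In b E x1 x2) : Enc S E (t0 b) (v0 x1 x2) := enc_X1 h.1

def t1 (b : Bx) : TM := X2 b
noncomputable def v1 (_x1 x2 : ℝ) : ℝ := x2
theorem h1 (h : In b E x1 x2) : Enc S E (t1 b) (v1 x1 x2) := enc_X2 h.2

def t2 (_b : Bx) : TM := tconst 1859775393 0 1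
noncomputable def v2 (_x1 _x2 : ℝ) : ℝ := Real.sqrt ((3 : ℕ) : ℝ)
theorem h2 (_h : In b E x1 x2) : Enc S E (t2 b) (v2 x1 x2) := enc_sqrtn E (by decide) (by decide)

def t3 (b : Bx) : TM := tscale 1 2 (t2 b)
noncomputable def v3 (x1 x2 : ℝ) : ℝ := ((1 : ℕ) : ℝ) / ((2 : ℕ) : ℝ) * v2 x1 x2
theorem h3 (h : In b E x1 x2) : Enc S E (t3 b) (v3 x1 x2) := enc_scale 1 (by norm_num) (h2 h)

def t4 (b : Bx) : TM := tsq S (t0 b)
noncomputable def v4 (x1 x2 : ℝ) : ℝ := (v0 x1 x2) ^ 2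
theorem h4 (h : In b E x1 x2) : Enc S E (t4 b) (v4 x1 x2) := enc_sq hS (h0 h)

def t5 (_b : Bx) : TM := tconst (Nat.mul 1 S) 0 0
noncomputable def v5 (_x1 _x2 : ℝ) : ℝ := ((1 : ℕ) : ℝ)
theorem h5 (_h : In b E x1 x2) : Enc S E (t5 b) (v5 x1 x2) := enc_nc E 1

def t6 (b : Bx) : TM := tsub (t5 b) (t4 b)
noncomputable def v6 (x1 x2 : ℝ) : ℝ := v5 x1 x2 - v4 x1 x2
theorem h6 (h : In b E x1 x2) : Enc S E (t6 b) (v6 x1 x2) := enc_sub (h5 h) (h4 h)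

def t7 (b : Bx) : TM := tsqrt S (t6 b)
noncomputable def v7 (x1 x2 : ℝ) : ℝ := Real.sqrt (v6 x1 x2)
theorem h7 (h : In b E x1 x2) : Enc S E (t7 b) (v7 x1 x2) := enc_sqrt hS (h6 h)

def t9 (_b : Bx) : TM := tconst (Nat.div (Nat.mul 1 S) 2) 0 1
noncomputable def v9 (_x1 _x2 : ℝ) : ℝ := ((1 : ℕ) : ℝ) / ((2 : ℕ) : ℝ)
theorem h9 (_h : In b E x1 x2) : Enc S E (t9 b) (v9 x1 x2) := enc_rat E 1 (by norm_num)

def t10 (b : Bx) : TM := tmul S (t7 b) (t3 b)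
noncomputable def v10 (x1 x2 : ℝ) : ℝ := v7 x1 x2 * v3 x1 x2
theorem h10 (h : In b E x1 x2) : Enc S E (t10 b) (v10 x1 x2) := enc_mul hS (h7 h) (h3 h)

def t11 (b : Bx) : TM := tneg (t10 b)
noncomputable def v11 (x1 x2 : ℝ) : ℝ := -(v10 x1 x2)
theorem h11 (h : In b E x1 x2) : Enc S E (t11 b) (v11 x1 x2) := enc_neg (h10 h)

def t12 (b : Bx) : TM := tscale 1 2 (t0 b)
noncomputable def v12 (x1 x2 : ℝ) : ℝ := ((1 : ℕ) : ℝ) / ((2 : ℕ) : ℝ) * v0 x1 x2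
theorem h12 (h : In b E x1 x2) : Enc S E (t12 b) (v12 x1 x2) := enc_scale 1 (by norm_num) (h0 h)

def t13 (b : Bx) : TM := tsub (t11 b) (t12 b)
noncomputable def v13 (x1 x2 : ℝ) : ℝ := v11 x1 x2 - v12 x1 x2
theorem h13 (h : In b E x1 x2) : Enc S E (t13 b) (v13 x1 x2) := enc_sub (h11 h) (h12 h)

def t14 (b : Bx) : TM := tmul S (t0 b) (t3 b)
noncomputable def v14 (x1 x2 : ℝ) : ℝ := v0 x1 x2 * v3 x1 x2
theorem h14 (h : In b E x1 x2) : Enc S E (t14 b) (v14 x1 x2) := enc_mul hS (h0 h) (h3 h)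

def t16 (b : Bx) : TM := tscale 1 2 (t7 b)
noncomputable def v16 (x1 x2 : ℝ) : ℝ := ((1 : ℕ) : ℝ) / ((2 : ℕ) : ℝ) * v7 x1 x2
theorem h16 (h : In b E x1 x2) : Enc S E (t16 b) (v16 x1 x2) := enc_scale 1 (by norm_num) (h7 h)

def t17 (b : Bx) : TM := tsub (t16 b) (t14 b)
noncomputable def v17 (x1 x2 : ℝ) : ℝ := v16 x1 x2 - v14 x1 x2
theorem h17 (h : In b E x1 x2) : Enc S E (t17 b) (v17 x1 x2) := enc_sub (h16 h) (h14 h)

def t18 (b : Bx) : TM := tmul S (t13 b) (t2 b)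
noncomputable def v18 (x1 x2 : ℝ) : ℝ := v13 x1 x2 * v2 x1 x2
theorem h18 (h : In b E x1 x2) : Enc S E (t18 b) (v18 x1 x2) := enc_mul hS (h13 h) (h2 h)

def t19 (b : Bx) : TM := tmul S (t17 b) (t2 b)
noncomputable def v19 (x1 x2 : ℝ) : ℝ := v17 x1 x2 * v2 x1 x2
theorem h19 (h : In b E x1 x2) : Enc S E (t19 b) (v19 x1 x2) := enc_mul hS (h17 h) (h2 h)

def t25 (b : Bx) : TM := tsub (t1 b) (t19 b)
noncomputable def v25 (x1 x2 : ℝ) : ℝ := v1 x1 x2 - v19 x1 x2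
theorem h25 (h : In b E x1 x2) : Enc S E (t25 b) (v25 x1 x2) := enc_sub (h1 h) (h19 h)

def t26 (b : Bx) : TM := tsq S (t1 b)
noncomputable def v26 (x1 x2 : ℝ) : ℝ := (v1 x1 x2) ^ 2
theorem h26 (h : In b E x1 x2) : Enc S E (t26 b) (v26 x1 x2) := enc_sq hS (h1 h)

def t27 (_b : Bx) : TM := tconst (Nat.mul 3 S) 0 0
noncomputable def v27 (_x1 _x2 : ℝ) : ℝ := ((3 : ℕ) : ℝ)
theorem h27 (_h : In b E x1 x2) : Enc S E (t27 b) (v27 x1 x2) := enc_nc E 3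

def t28 (b : Bx) : TM := tsub (t27 b) (t26 b)
noncomputable def v28 (x1 x2 : ℝ) : ℝ := v27 x1 x2 - v26 x1 x2
theorem h28 (h : In b E x1 x2) : Enc S E (t28 b) (v28 x1 x2) := enc_sub (h27 h) (h26 h)

def t29 (b : Bx) : TM := tsqrt S (t28 b)
noncomputable def v29 (x1 x2 : ℝ) : ℝ := Real.sqrt (v28 x1 x2)
theorem h29 (h : In b E x1 x2) : Enc S E (t29 b) (v29 x1 x2) := enc_sqrt hS (h28 h)

def t32 (b : Bx) : TM := tsub (t7 b) (t29 b)
noncomputable def v32 (x1 x2 : ℝ) : ℝ := v7 x1 x2 - v29 x1 x2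
theorem h32 (h : In b E x1 x2) : Enc S E (t32 b) (v32 x1 x2) := enc_sub (h7 h) (h29 h)

def t33 (b : Bx) : TM := tadd (t0 b) (t1 b)
noncomputable def v33 (x1 x2 : ℝ) : ℝ := v0 x1 x2 + v1 x1 x2
theorem h33 (h : In b E x1 x2) : Enc S E (t33 b) (v33 x1 x2) := enc_add (h0 h) (h1 h)

def t34 (b : Bx) : TM := tmul S (t2 b) (t0 b)
noncomputable def v34 (x1 x2 : ℝ) : ℝ := v2 x1 x2 * v0 x1 x2
theorem h34 (h : In b E x1 x2) : Enc S E (t34 b) (v34 x1 x2) := enc_mul hS (h2 h) (h0 h)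

def t35 (b : Bx) : TM := tsub (t7 b) (t34 b)
noncomputable def v35 (x1 x2 : ℝ) : ℝ := v7 x1 x2 - v34 x1 x2
theorem h35 (h : In b E x1 x2) : Enc S E (t35 b) (v35 x1 x2) := enc_sub (h7 h) (h34 h)

def t36 (b : Bx) : TM := tadd (t5 b) (t7 b)
noncomputable def v36 (x1 x2 : ℝ) : ℝ := v5 x1 x2 + v7 x1 x2
theorem h36 (h : In b E x1 x2) : Enc S E (t36 b) (v36 x1 x2) := enc_add (h5 h) (h7 h)

def t37 (b : Bx) : TM := tmul S (t35 b) (t36 b)
noncomputable def v37 (x1 x2 : ℝ) : ℝ := v35 x1 x2 * v36 x1 x2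
theorem h37 (h : In b E x1 x2) : Enc S E (t37 b) (v37 x1 x2) := enc_mul hS (h35 h) (h36 h)

def t38 (b : Bx) : TM := tsub (t36 b) (t34 b)
noncomputable def v38 (x1 x2 : ℝ) : ℝ := v36 x1 x2 - v34 x1 x2
theorem h38 (h : In b E x1 x2) : Enc S E (t38 b) (v38 x1 x2) := enc_sub (h36 h) (h34 h)

def t39 (b : Bx) : TM := tinv S (t38 b)
noncomputable def v39 (x1 x2 : ℝ) : ℝ := (v38 x1 x2)⁻¹
theorem h39 (h : In b E x1 x2) : Enc S E (t39 b) (v39 x1 x2) := enc_inv hS (h38 h)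

def t40 (b : Bx) : TM := tmul S (t37 b) (t39 b)
noncomputable def v40 (x1 x2 : ℝ) : ℝ := v37 x1 x2 * v39 x1 x2
theorem h40 (h : In b E x1 x2) : Enc S E (t40 b) (v40 x1 x2) := enc_mul hS (h37 h) (h39 h)

def t41 (_b : Bx) : TM := tconst (Nat.div (Nat.mul 3 S) 2) 0 1
noncomputable def v41 (_x1 _x2 : ℝ) : ℝ := ((3 : ℕ) : ℝ) / ((2 : ℕ) : ℝ)
theorem h41 (_h : In b E x1 x2) : Enc S E (t41 b) (v41 x1 x2) := enc_rat E 3 (by norm_num)

def t42 (b : Bx) : TM := tadd (t29 b) (t41 b)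
noncomputable def v42 (x1 x2 : ℝ) : ℝ := v29 x1 x2 + v41 x1 x2
theorem h42 (h : In b E x1 x2) : Enc S E (t42 b) (v42 x1 x2) := enc_add (h29 h) (h41 h)

def t43 (b : Bx) : TM := tmul S (t26 b) (t42 b)
noncomputable def v43 (x1 x2 : ℝ) : ℝ := v26 x1 x2 * v42 x1 x2
theorem h43 (h : In b E x1 x2) : Enc S E (t43 b) (v43 x1 x2) := enc_mul hS (h26 h) (h42 h)

def t44 (b : Bx) : TM := tsub (t3 b) (t1 b)
noncomputable def v44 (x1 x2 : ℝ) : ℝ := v3 x1 x2 - v1 x1 x2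
theorem h44 (h : In b E x1 x2) : Enc S E (t44 b) (v44 x1 x2) := enc_sub (h3 h) (h1 h)

def t45 (b : Bx) : TM := tadd (t3 b) (t1 b)
noncomputable def v45 (x1 x2 : ℝ) : ℝ := v3 x1 x2 + v1 x1 x2
theorem h45 (h : In b E x1 x2) : Enc S E (t45 b) (v45 x1 x2) := enc_add (h3 h) (h1 h)

def t46 (b : Bx) : TM := tmul S (t44 b) (t45 b)
noncomputable def v46 (x1 x2 : ℝ) : ℝ := v44 x1 x2 * v45 x1 x2
theorem h46 (h : In b E x1 x2) : Enc S E (t46 b) (v46 x1 x2) := enc_mul hS (h44 h) (h45 h)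

def t47 (b : Bx) : TM := tinv S (t46 b)
noncomputable def v47 (x1 x2 : ℝ) : ℝ := (v46 x1 x2)⁻¹
theorem h47 (h : In b E x1 x2) : Enc S E (t47 b) (v47 x1 x2) := enc_inv hS (h46 h)

def t48 (b : Bx) : TM := tmul S (t43 b) (t47 b)
noncomputable def v48 (x1 x2 : ℝ) : ℝ := v43 x1 x2 * v47 x1 x2
theorem h48 (h : In b E x1 x2) : Enc S E (t48 b) (v48 x1 x2) := enc_mul hS (h43 h) (h47 h)

def t50 (b : Bx) : TM := tsq S (t32 b)
noncomputable def v50 (x1 x2 : ℝ) : ℝ := (v32 x1 x2) ^ 2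
theorem h50 (h : In b E x1 x2) : Enc S E (t50 b) (v50 x1 x2) := enc_sq hS (h32 h)

def t51 (b : Bx) : TM := tsq S (t33 b)
noncomputable def v51 (x1 x2 : ℝ) : ℝ := (v33 x1 x2) ^ 2
theorem h51 (h : In b E x1 x2) : Enc S E (t51 b) (v51 x1 x2) := enc_sq hS (h33 h)

def t52 (b : Bx) : TM := tadd (t50 b) (t51 b)
noncomputable def v52 (x1 x2 : ℝ) : ℝ := v50 x1 x2 + v51 x1 x2
theorem h52 (h : In b E x1 x2) : Enc S E (t52 b) (v52 x1 x2) := enc_add (h50 h) (h51 h)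

def t55 (b : Bx) : TM := tsq S (t19 b)
noncomputable def v55 (x1 x2 : ℝ) : ℝ := (v19 x1 x2) ^ 2
theorem h55 (h : In b E x1 x2) : Enc S E (t55 b) (v55 x1 x2) := enc_sq hS (h19 h)

def t56 (b : Bx) : TM := tadd (t1 b) (t19 b)
noncomputable def v56 (x1 x2 : ℝ) : ℝ := v1 x1 x2 + v19 x1 x2
theorem h56 (h : In b E x1 x2) : Enc S E (t56 b) (v56 x1 x2) := enc_add (h1 h) (h19 h)

def t59 (b : Bx) : TM := tsub (t29 b) (t18 b)
noncomputable def v59 (x1 x2 : ℝ) : ℝ := v29 x1 x2 - v18 x1 x2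
theorem h59 (h : In b E x1 x2) : Enc S E (t59 b) (v59 x1 x2) := enc_sub (h29 h) (h18 h)

def t60 (b : Bx) : TM := tinv S (t59 b)
noncomputable def v60 (x1 x2 : ℝ) : ℝ := (v59 x1 x2)⁻¹
theorem h60 (h : In b E x1 x2) : Enc S E (t60 b) (v60 x1 x2) := enc_inv hS (h59 h)

def t61 (b : Bx) : TM := tmul S (t56 b) (t60 b)
noncomputable def v61 (x1 x2 : ℝ) : ℝ := v56 x1 x2 * v60 x1 x2
theorem h61 (h : In b E x1 x2) : Enc S E (t61 b) (v61 x1 x2) := enc_mul hS (h56 h) (h60 h)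

def t63 (b : Bx) : TM := tadd (t7 b) (t18 b)
noncomputable def v63 (x1 x2 : ℝ) : ℝ := v7 x1 x2 + v18 x1 x2
theorem h63 (h : In b E x1 x2) : Enc S E (t63 b) (v63 x1 x2) := enc_add (h7 h) (h18 h)

def t65 (b : Bx) : TM := tadd (t32 b) (t63 b)
noncomputable def v65 (x1 x2 : ℝ) : ℝ := v32 x1 x2 + v63 x1 x2
theorem h65 (h : In b E x1 x2) : Enc S E (t65 b) (v65 x1 x2) := enc_add (h32 h) (h63 h)

def t66 (b : Bx) : TM := tmul S (t61 b) (t65 b)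
noncomputable def v66 (x1 x2 : ℝ) : ℝ := v61 x1 x2 * v65 x1 x2
theorem h66 (h : In b E x1 x2) : Enc S E (t66 b) (v66 x1 x2) := enc_mul hS (h61 h) (h65 h)

def t67 (b : Bx) : TM := tadd (t0 b) (t19 b)
noncomputable def v67 (x1 x2 : ℝ) : ℝ := v0 x1 x2 + v19 x1 x2
theorem h67 (h : In b E x1 x2) : Enc S E (t67 b) (v67 x1 x2) := enc_add (h0 h) (h19 h)

def t69 (b : Bx) : TM := tadd (t33 b) (t67 b)
noncomputable def v69 (x1 x2 : ℝ) : ℝ := v33 x1 x2 + v67 x1 x2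
theorem h69 (h : In b E x1 x2) : Enc S E (t69 b) (v69 x1 x2) := enc_add (h33 h) (h67 h)

def t71 (b : Bx) : TM := tadd (t66 b) (t69 b)
noncomputable def v71 (x1 x2 : ℝ) : ℝ := v66 x1 x2 + v69 x1 x2
theorem h71 (h : In b E x1 x2) : Enc S E (t71 b) (v71 x1 x2) := enc_add (h66 h) (h69 h)

def t73 (b : Bx) : TM := tsub (t29 b) (t7 b)
noncomputable def v73 (x1 x2 : ℝ) : ℝ := v29 x1 x2 - v7 x1 x2
theorem h73 (h : In b E x1 x2) : Enc S E (t73 b) (v73 x1 x2) := enc_sub (h29 h) (h7 h)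

def t74 (b : Bx) : TM := tsub (t5 b) (t51 b)
noncomputable def v74 (x1 x2 : ℝ) : ℝ := v5 x1 x2 - v51 x1 x2
theorem h74 (h : In b E x1 x2) : Enc S E (t74 b) (v74 x1 x2) := enc_sub (h5 h) (h51 h)

def t75 (b : Bx) : TM := tsqrt S (t74 b)
noncomputable def v75 (x1 x2 : ℝ) : ℝ := Real.sqrt (v74 x1 x2)
theorem h75 (h : In b E x1 x2) : Enc S E (t75 b) (v75 x1 x2) := enc_sqrt hS (h74 h)

def t76 (b : Bx) : TM := tadd (t14 b) (t16 b)
noncomputable def v76 (x1 x2 : ℝ) : ℝ := v14 x1 x2 + v16 x1 x2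
theorem h76 (h : In b E x1 x2) : Enc S E (t76 b) (v76 x1 x2) := enc_add (h14 h) (h16 h)

def t77 (b : Bx) : TM := tnat 2 (t75 b)
noncomputable def v77 (x1 x2 : ℝ) : ℝ := ((2 : ℕ) : ℝ) * v75 x1 x2
theorem h77 (h : In b E x1 x2) : Enc S E (t77 b) (v77 x1 x2) := enc_nat 2 (h75 h)

def t78 (b : Bx) : TM := tadd (t5 b) (t77 b)
noncomputable def v78 (x1 x2 : ℝ) : ℝ := v5 x1 x2 + v77 x1 x2
theorem h78 (h : In b E x1 x2) : Enc S E (t78 b) (v78 x1 x2) := enc_add (h5 h) (h77 h)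

def t79 (b : Bx) : TM := tmul S (t2 b) (t33 b)
noncomputable def v79 (x1 x2 : ℝ) : ℝ := v2 x1 x2 * v33 x1 x2
theorem h79 (h : In b E x1 x2) : Enc S E (t79 b) (v79 x1 x2) := enc_mul hS (h2 h) (h33 h)

def t80 (b : Bx) : TM := tsub (t79 b) (t75 b)
noncomputable def v80 (x1 x2 : ℝ) : ℝ := v79 x1 x2 - v75 x1 x2
theorem h80 (h : In b E x1 x2) : Enc S E (t80 b) (v80 x1 x2) := enc_sub (h79 h) (h75 h)

def t81 (b : Bx) : TM := tmul S (t78 b) (t80 b)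
noncomputable def v81 (x1 x2 : ℝ) : ℝ := v78 x1 x2 * v80 x1 x2
theorem h81 (h : In b E x1 x2) : Enc S E (t81 b) (v81 x1 x2) := enc_mul hS (h78 h) (h80 h)

def t82 (b : Bx) : TM := tadd (t5 b) (t79 b)
noncomputable def v82 (x1 x2 : ℝ) : ℝ := v5 x1 x2 + v79 x1 x2
theorem h82 (h : In b E x1 x2) : Enc S E (t82 b) (v82 x1 x2) := enc_add (h5 h) (h79 h)

def t83 (b : Bx) : TM := tsub (t82 b) (t75 b)
noncomputable def v83 (x1 x2 : ℝ) : ℝ := v82 x1 x2 - v75 x1 x2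
theorem h83 (h : In b E x1 x2) : Enc S E (t83 b) (v83 x1 x2) := enc_sub (h82 h) (h75 h)

def t84 (b : Bx) : TM := tnat 2 (t83 b)
noncomputable def v84 (x1 x2 : ℝ) : ℝ := ((2 : ℕ) : ℝ) * v83 x1 x2
theorem h84 (h : In b E x1 x2) : Enc S E (t84 b) (v84 x1 x2) := enc_nat 2 (h83 h)

def t85 (b : Bx) : TM := tinv S (t84 b)
noncomputable def v85 (x1 x2 : ℝ) : ℝ := (v84 x1 x2)⁻¹
theorem h85 (h : In b E x1 x2) : Enc S E (t85 b) (v85 x1 x2) := enc_inv hS (h84 h)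

def t86 (b : Bx) : TM := tmul S (t81 b) (t85 b)
noncomputable def v86 (x1 x2 : ℝ) : ℝ := v81 x1 x2 * v85 x1 x2
theorem h86 (h : In b E x1 x2) : Enc S E (t86 b) (v86 x1 x2) := enc_mul hS (h81 h) (h85 h)

def t89 (b : Bx) : TM := tadd (t75 b) (t76 b)
noncomputable def v89 (x1 x2 : ℝ) : ℝ := v75 x1 x2 + v76 x1 x2
theorem h89 (h : In b E x1 x2) : Enc S E (t89 b) (v89 x1 x2) := enc_add (h75 h) (h76 h)

def t90 (b : Bx) : TM := tinv S (t89 b)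
noncomputable def v90 (x1 x2 : ℝ) : ℝ := (v89 x1 x2)⁻¹
theorem h90 (h : In b E x1 x2) : Enc S E (t90 b) (v90 x1 x2) := enc_inv hS (h89 h)

def t91 (b : Bx) : TM := tmul S (t69 b) (t90 b)
noncomputable def v91 (x1 x2 : ℝ) : ℝ := v69 x1 x2 * v90 x1 x2
theorem h91 (h : In b E x1 x2) : Enc S E (t91 b) (v91 x1 x2) := enc_mul hS (h69 h) (h90 h)

def t93 (b : Bx) : TM := tnat 2 (t76 b)
noncomputable def v93 (x1 x2 : ℝ) : ℝ := ((2 : ℕ) : ℝ) * v76 x1 x2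
theorem h93 (h : In b E x1 x2) : Enc S E (t93 b) (v93 x1 x2) := enc_nat 2 (h76 h)

def t94 (b : Bx) : TM := tnat 2 (t91 b)
noncomputable def v94 (x1 x2 : ℝ) : ℝ := ((2 : ℕ) : ℝ) * v91 x1 x2
theorem h94 (h : In b E x1 x2) : Enc S E (t94 b) (v94 x1 x2) := enc_nat 2 (h91 h)

def t96 (b : Bx) : TM := tadd (t5 b) (t93 b)
noncomputable def v96 (x1 x2 : ℝ) : ℝ := v5 x1 x2 + v93 x1 x2
theorem h96 (h : In b E x1 x2) : Enc S E (t96 b) (v96 x1 x2) := enc_add (h5 h) (h93 h)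

def t97 (b : Bx) : TM := tmul S (t2 b) (t67 b)
noncomputable def v97 (x1 x2 : ℝ) : ℝ := v2 x1 x2 * v67 x1 x2
theorem h97 (h : In b E x1 x2) : Enc S E (t97 b) (v97 x1 x2) := enc_mul hS (h2 h) (h67 h)

def t98 (b : Bx) : TM := tsub (t97 b) (t76 b)
noncomputable def v98 (x1 x2 : ℝ) : ℝ := v97 x1 x2 - v76 x1 x2
theorem h98 (h : In b E x1 x2) : Enc S E (t98 b) (v98 x1 x2) := enc_sub (h97 h) (h76 h)

def t99 (b : Bx) : TM := tadd (t2 b) (t91 b)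
noncomputable def v99 (x1 x2 : ℝ) : ℝ := v2 x1 x2 + v91 x1 x2
theorem h99 (h : In b E x1 x2) : Enc S E (t99 b) (v99 x1 x2) := enc_add (h2 h) (h91 h)

def t100 (b : Bx) : TM := tmul S (t96 b) (t98 b)
noncomputable def v100 (x1 x2 : ℝ) : ℝ := v96 x1 x2 * v98 x1 x2
theorem h100 (h : In b E x1 x2) : Enc S E (t100 b) (v100 x1 x2) := enc_mul hS (h96 h) (h98 h)

def t101 (b : Bx) : TM := tmul S (t94 b) (t80 b)
noncomputable def v101 (x1 x2 : ℝ) : ℝ := v94 x1 x2 * v80 x1 x2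
theorem h101 (h : In b E x1 x2) : Enc S E (t101 b) (v101 x1 x2) := enc_mul hS (h94 h) (h80 h)

def t103 (b : Bx) : TM := tmul S (t96 b) (t99 b)
noncomputable def v103 (x1 x2 : ℝ) : ℝ := v96 x1 x2 * v99 x1 x2
theorem h103 (h : In b E x1 x2) : Enc S E (t103 b) (v103 x1 x2) := enc_mul hS (h96 h) (h99 h)

def t104 (b : Bx) : TM := tsub (t103 b) (t101 b)
noncomputable def v104 (x1 x2 : ℝ) : ℝ := v103 x1 x2 - v101 x1 x2
theorem h104 (h : In b E x1 x2) : Enc S E (t104 b) (v104 x1 x2) := enc_sub (h103 h) (h101 h)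

def t105 (b : Bx) : TM := tadd (t5 b) (t97 b)
noncomputable def v105 (x1 x2 : ℝ) : ℝ := v5 x1 x2 + v97 x1 x2
theorem h105 (h : In b E x1 x2) : Enc S E (t105 b) (v105 x1 x2) := enc_add (h5 h) (h97 h)

def t106 (b : Bx) : TM := tsub (t105 b) (t76 b)
noncomputable def v106 (x1 x2 : ℝ) : ℝ := v105 x1 x2 - v76 x1 x2
theorem h106 (h : In b E x1 x2) : Enc S E (t106 b) (v106 x1 x2) := enc_sub (h105 h) (h76 h)

def t107 (b : Bx) : TM := tnat 2 (t106 b)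
noncomputable def v107 (x1 x2 : ℝ) : ℝ := ((2 : ℕ) : ℝ) * v106 x1 x2
theorem h107 (h : In b E x1 x2) : Enc S E (t107 b) (v107 x1 x2) := enc_nat 2 (h106 h)

def t108 (b : Bx) : TM := tnat 2 (t99 b)
noncomputable def v108 (x1 x2 : ℝ) : ℝ := ((2 : ℕ) : ℝ) * v99 x1 x2
theorem h108 (h : In b E x1 x2) : Enc S E (t108 b) (v108 x1 x2) := enc_nat 2 (h99 h)

def t109 (b : Bx) : TM := tinv S (t107 b)
noncomputable def v109 (x1 x2 : ℝ) : ℝ := (v107 x1 x2)⁻¹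
theorem h109 (h : In b E x1 x2) : Enc S E (t109 b) (v109 x1 x2) := enc_inv hS (h107 h)

def t110 (b : Bx) : TM := tmul S (t85 b) (t109 b)
noncomputable def v110 (x1 x2 : ℝ) : ℝ := v85 x1 x2 * v109 x1 x2
theorem h110 (h : In b E x1 x2) : Enc S E (t110 b) (v110 x1 x2) := enc_mul hS (h85 h) (h109 h)

def t111 (b : Bx) : TM := tmul S (t108 b) (t110 b)
noncomputable def v111 (x1 x2 : ℝ) : ℝ := v108 x1 x2 * v110 x1 x2
theorem h111 (h : In b E x1 x2) : Enc S E (t111 b) (v111 x1 x2) := enc_mul hS (h108 h) (h110 h)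

def t114 (b : Bx) : TM := tmul S (t104 b) (t85 b)
noncomputable def v114 (x1 x2 : ℝ) : ℝ := v104 x1 x2 * v85 x1 x2
theorem h114 (h : In b E x1 x2) : Enc S E (t114 b) (v114 x1 x2) := enc_mul hS (h104 h) (h85 h)

def t115 (b : Bx) : TM := tmul S (t100 b) (t111 b)
noncomputable def v115 (x1 x2 : ℝ) : ℝ := v100 x1 x2 * v111 x1 x2
theorem h115 (h : In b E x1 x2) : Enc S E (t115 b) (v115 x1 x2) := enc_mul hS (h100 h) (h111 h)

def t117 (b : Bx) : TM := tsub (t114 b) (t115 b)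
noncomputable def v117 (x1 x2 : ℝ) : ℝ := v114 x1 x2 - v115 x1 x2
theorem h117 (h : In b E x1 x2) : Enc S E (t117 b) (v117 x1 x2) := enc_sub (h114 h) (h115 h)

def t118 (b : Bx) : TM := kxq1_t (t73 b) (t33 b)
noncomputable def v118 (x1 x2 : ℝ) : ℝ := kxq1_v (v73 x1 x2) (v33 x1 x2)
theorem h118 (h : In b E x1 x2) : Enc S E (t118 b) (v118 x1 x2) := kxq1_enc (h73 h) (h33 h)

def t119 (b : Bx) : TM := tadd (t73 b) (t75 b)
noncomputable def v119 (x1 x2 : ℝ) : ℝ := v73 x1 x2 + v75 x1 x2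
theorem h119 (h : In b E x1 x2) : Enc S E (t119 b) (v119 x1 x2) := enc_add (h73 h) (h75 h)

def t120 (b : Bx) : TM := f2m_t (t33 b)
noncomputable def v120 (x1 x2 : ℝ) : ℝ := f2m_v (v33 x1 x2)
theorem h120 (h : In b E x1 x2) : Enc S E (t120 b) (v120 x1 x2) := f2m_enc (h33 h)

def t121 (b : Bx) : TM := tsub (t120 b) (t73 b)
noncomputable def v121 (x1 x2 : ℝ) : ℝ := v120 x1 x2 - v73 x1 x2
theorem h121 (h : In b E x1 x2) : Enc S E (t121 b) (v121 x1 x2) := enc_sub (h120 h) (h73 h)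

def t122 (b : Bx) : TM := tsub (t73 b) (t75 b)
noncomputable def v122 (x1 x2 : ℝ) : ℝ := v73 x1 x2 - v75 x1 x2
theorem h122 (h : In b E x1 x2) : Enc S E (t122 b) (v122 x1 x2) := enc_sub (h73 h) (h75 h)

def t123 (b : Bx) : TM := tmul S (t122 b) (t118 b)
noncomputable def v123 (x1 x2 : ℝ) : ℝ := v122 x1 x2 * v118 x1 x2
theorem h123 (h : In b E x1 x2) : Enc S E (t123 b) (v123 x1 x2) := enc_mul hS (h122 h) (h118 h)

def t124 (b : Bx) : TM := tadd (t86 b) (t123 b)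
noncomputable def v124 (x1 x2 : ℝ) : ℝ := v86 x1 x2 + v123 x1 x2
theorem h124 (h : In b E x1 x2) : Enc S E (t124 b) (v124 x1 x2) := enc_add (h86 h) (h123 h)

def t127 (b : Bx) : TM := tmul S (t71 b) (t118 b)
noncomputable def v127 (x1 x2 : ℝ) : ℝ := v71 x1 x2 * v118 x1 x2
theorem h127 (h : In b E x1 x2) : Enc S E (t127 b) (v127 x1 x2) := enc_mul hS (h71 h) (h118 h)

def t128 (b : Bx) : TM := tinv S (t119 b)
noncomputable def v128 (x1 x2 : ℝ) : ℝ := (v119 x1 x2)⁻¹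
theorem h128 (h : In b E x1 x2) : Enc S E (t128 b) (v128 x1 x2) := enc_inv hS (h119 h)

def t129 (b : Bx) : TM := tmul S (t127 b) (t128 b)
noncomputable def v129 (x1 x2 : ℝ) : ℝ := v127 x1 x2 * v128 x1 x2
theorem h129 (h : In b E x1 x2) : Enc S E (t129 b) (v129 x1 x2) := enc_mul hS (h127 h) (h128 h)

def t130 (b : Bx) : TM := tadd (t117 b) (t129 b)
noncomputable def v130 (x1 x2 : ℝ) : ℝ := v117 x1 x2 + v129 x1 x2
theorem h130 (h : In b E x1 x2) : Enc S E (t130 b) (v130 x1 x2) := enc_add (h117 h) (h129 h)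

def t132 (b : Bx) : TM := tmul S (t7 b) (t1 b)
noncomputable def v132 (x1 x2 : ℝ) : ℝ := v7 x1 x2 * v1 x1 x2
theorem h132 (h : In b E x1 x2) : Enc S E (t132 b) (v132 x1 x2) := enc_mul hS (h7 h) (h1 h)

def t133 (b : Bx) : TM := tmul S (t29 b) (t0 b)
noncomputable def v133 (x1 x2 : ℝ) : ℝ := v29 x1 x2 * v0 x1 x2
theorem h133 (h : In b E x1 x2) : Enc S E (t133 b) (v133 x1 x2) := enc_mul hS (h29 h) (h0 h)

def t135 (b : Bx) : TM := tadd (t132 b) (t133 b)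
noncomputable def v135 (x1 x2 : ℝ) : ℝ := v132 x1 x2 + v133 x1 x2
theorem h135 (h : In b E x1 x2) : Enc S E (t135 b) (v135 x1 x2) := enc_add (h132 h) (h133 h)

def t136 (b : Bx) : TM := tinv S (t2 b)
noncomputable def v136 (x1 x2 : ℝ) : ℝ := (v2 x1 x2)⁻¹
theorem h136 (h : In b E x1 x2) : Enc S E (t136 b) (v136 x1 x2) := enc_inv hS (h2 h)

def t137 (b : Bx) : TM := tmul S (t135 b) (t136 b)
noncomputable def v137 (x1 x2 : ℝ) : ℝ := v135 x1 x2 * v136 x1 x2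
theorem h137 (h : In b E x1 x2) : Enc S E (t137 b) (v137 x1 x2) := enc_mul hS (h135 h) (h136 h)

def t138 (b : Bx) : TM := tsub (t137 b) (t9 b)
noncomputable def v138 (x1 x2 : ℝ) : ℝ := v137 x1 x2 - v9 x1 x2
theorem h138 (h : In b E x1 x2) : Enc S E (t138 b) (v138 x1 x2) := enc_sub (h137 h) (h9 h)

def t142 (b : Bx) : TM := tmul S (t61 b) (t0 b)
noncomputable def v142 (x1 x2 : ℝ) : ℝ := v61 x1 x2 * v0 x1 x2
theorem h142 (h : In b E x1 x2) : Enc S E (t142 b) (v142 x1 x2) := enc_mul hS (h61 h) (h0 h)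

def t145 (b : Bx) : TM := tsub (t7 b) (t142 b)
noncomputable def v145 (x1 x2 : ℝ) : ℝ := v7 x1 x2 - v142 x1 x2
theorem h145 (h : In b E x1 x2) : Enc S E (t145 b) (v145 x1 x2) := enc_sub (h7 h) (h142 h)

def t147 (b : Bx) : TM := tmul S (t145 b) (t136 b)
noncomputable def v147 (x1 x2 : ℝ) : ℝ := v145 x1 x2 * v136 x1 x2
theorem h147 (h : In b E x1 x2) : Enc S E (t147 b) (v147 x1 x2) := enc_mul hS (h145 h) (h136 h)

def t149 (b : Bx) : TM := tsub (t33 b) (t3 b)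
noncomputable def v149 (x1 x2 : ℝ) : ℝ := v33 x1 x2 - v3 x1 x2
theorem h149 (h : In b E x1 x2) : Enc S E (t149 b) (v149 x1 x2) := enc_sub (h33 h) (h3 h)

def t161 (b : Bx) : TM := tsub (t41 b) (t18 b)
noncomputable def v161 (x1 x2 : ℝ) : ℝ := v41 x1 x2 - v18 x1 x2
theorem h161 (h : In b E x1 x2) : Enc S E (t161 b) (v161 x1 x2) := enc_sub (h41 h) (h18 h)

def t162 (b : Bx) : TM := tmul S (t55 b) (t161 b)
noncomputable def v162 (x1 x2 : ℝ) : ℝ := v55 x1 x2 * v161 x1 x2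
theorem h162 (h : In b E x1 x2) : Enc S E (t162 b) (v162 x1 x2) := enc_mul hS (h55 h) (h161 h)

def t163 (b : Bx) : TM := tmul S (t56 b) (t42 b)
noncomputable def v163 (x1 x2 : ℝ) : ℝ := v56 x1 x2 * v42 x1 x2
theorem h163 (h : In b E x1 x2) : Enc S E (t163 b) (v163 x1 x2) := enc_mul hS (h56 h) (h42 h)

def t164 (b : Bx) : TM := tmul S (t55 b) (t61 b)
noncomputable def v164 (x1 x2 : ℝ) : ℝ := v55 x1 x2 * v61 x1 x2
theorem h164 (h : In b E x1 x2) : Enc S E (t164 b) (v164 x1 x2) := enc_mul hS (h55 h) (h61 h)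

def t166 (b : Bx) : TM := tsub (t163 b) (t164 b)
noncomputable def v166 (x1 x2 : ℝ) : ℝ := v163 x1 x2 - v164 x1 x2
theorem h166 (h : In b E x1 x2) : Enc S E (t166 b) (v166 x1 x2) := enc_sub (h163 h) (h164 h)

def t167 (b : Bx) : TM := tsub (t3 b) (t19 b)
noncomputable def v167 (x1 x2 : ℝ) : ℝ := v3 x1 x2 - v19 x1 x2
theorem h167 (h : In b E x1 x2) : Enc S E (t167 b) (v167 x1 x2) := enc_sub (h3 h) (h19 h)

def t169 (b : Bx) : TM := tadd (t3 b) (t19 b)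
noncomputable def v169 (x1 x2 : ℝ) : ℝ := v3 x1 x2 + v19 x1 x2
theorem h169 (h : In b E x1 x2) : Enc S E (t169 b) (v169 x1 x2) := enc_add (h3 h) (h19 h)

def t170 (b : Bx) : TM := tmul S (t167 b) (t169 b)
noncomputable def v170 (x1 x2 : ℝ) : ℝ := v167 x1 x2 * v169 x1 x2
theorem h170 (h : In b E x1 x2) : Enc S E (t170 b) (v170 x1 x2) := enc_mul hS (h167 h) (h169 h)

def t172 (b : Bx) : TM := tsub (t167 b) (t45 b)
noncomputable def v172 (x1 x2 : ℝ) : ℝ := v167 x1 x2 - v45 x1 x2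
theorem h172 (h : In b E x1 x2) : Enc S E (t172 b) (v172 x1 x2) := enc_sub (h167 h) (h45 h)

def t173 (b : Bx) : TM := tinv S (t170 b)
noncomputable def v173 (x1 x2 : ℝ) : ℝ := (v170 x1 x2)⁻¹
theorem h173 (h : In b E x1 x2) : Enc S E (t173 b) (v173 x1 x2) := enc_inv hS (h170 h)

def t174 (b : Bx) : TM := tmul S (t47 b) (t173 b)
noncomputable def v174 (x1 x2 : ℝ) : ℝ := v47 x1 x2 * v173 x1 x2
theorem h174 (h : In b E x1 x2) : Enc S E (t174 b) (v174 x1 x2) := enc_mul hS (h47 h) (h173 h)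

def t175 (b : Bx) : TM := tmul S (t172 b) (t174 b)
noncomputable def v175 (x1 x2 : ℝ) : ℝ := v172 x1 x2 * v174 x1 x2
theorem h175 (h : In b E x1 x2) : Enc S E (t175 b) (v175 x1 x2) := enc_mul hS (h172 h) (h174 h)

def t178 (b : Bx) : TM := tmul S (t166 b) (t47 b)
noncomputable def v178 (x1 x2 : ℝ) : ℝ := v166 x1 x2 * v47 x1 x2
theorem h178 (h : In b E x1 x2) : Enc S E (t178 b) (v178 x1 x2) := enc_mul hS (h166 h) (h47 h)

def t179 (b : Bx) : TM := tmul S (t162 b) (t175 b)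
noncomputable def v179 (x1 x2 : ℝ) : ℝ := v162 x1 x2 * v175 x1 x2
theorem h179 (h : In b E x1 x2) : Enc S E (t179 b) (v179 x1 x2) := enc_mul hS (h162 h) (h175 h)

def t181 (b : Bx) : TM := tsub (t178 b) (t179 b)
noncomputable def v181 (x1 x2 : ℝ) : ℝ := v178 x1 x2 - v179 x1 x2
theorem h181 (h : In b E x1 x2) : Enc S E (t181 b) (v181 x1 x2) := enc_sub (h178 h) (h179 h)

def t182 (b : Bx) : TM := tmul S (t0 b) (t181 b)
noncomputable def v182 (x1 x2 : ℝ) : ℝ := v0 x1 x2 * v181 x1 x2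
theorem h182 (h : In b E x1 x2) : Enc S E (t182 b) (v182 x1 x2) := enc_mul hS (h0 h) (h181 h)

def t183 (b : Bx) : TM := tsub (t182 b) (t40 b)
noncomputable def v183 (x1 x2 : ℝ) : ℝ := v182 x1 x2 - v40 x1 x2
theorem h183 (h : In b E x1 x2) : Enc S E (t183 b) (v183 x1 x2) := enc_sub (h182 h) (h40 h)

def t184 (b : Bx) : TM := tsub (t67 b) (t3 b)
noncomputable def v184 (x1 x2 : ℝ) : ℝ := v67 x1 x2 - v3 x1 x2
theorem h184 (h : In b E x1 x2) : Enc S E (t184 b) (v184 x1 x2) := enc_sub (h67 h) (h3 h)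

def t185 (b : Bx) : TM := tmul S (t184 b) (t181 b)
noncomputable def v185 (x1 x2 : ℝ) : ℝ := v184 x1 x2 * v181 x1 x2
theorem h185 (h : In b E x1 x2) : Enc S E (t185 b) (v185 x1 x2) := enc_mul hS (h184 h) (h181 h)

def t186 (b : Bx) : TM := tadd (t48 b) (t185 b)
noncomputable def v186 (x1 x2 : ℝ) : ℝ := v48 x1 x2 + v185 x1 x2
theorem h186 (h : In b E x1 x2) : Enc S E (t186 b) (v186 x1 x2) := enc_add (h48 h) (h185 h)

def t187 (b : Bx) : TM := tadd (t186 b) (t124 b)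
noncomputable def v187 (x1 x2 : ℝ) : ℝ := v186 x1 x2 + v124 x1 x2
theorem h187 (h : In b E x1 x2) : Enc S E (t187 b) (v187 x1 x2) := enc_add (h186 h) (h124 h)

def t188 (b : Bx) : TM := tmul S (t19 b) (t130 b)
noncomputable def v188 (x1 x2 : ℝ) : ℝ := v19 x1 x2 * v130 x1 x2
theorem h188 (h : In b E x1 x2) : Enc S E (t188 b) (v188 x1 x2) := enc_mul hS (h19 h) (h130 h)

def t190 (b : Bx) : TM := tadd (t187 b) (t188 b)
noncomputable def v190 (x1 x2 : ℝ) : ℝ := v187 x1 x2 + v188 x1 x2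
theorem h190 (h : In b E x1 x2) : Enc S E (t190 b) (v190 x1 x2) := enc_add (h187 h) (h188 h)

def t191 (b : Bx) : TM := tmul S (t0 b) (t130 b)
noncomputable def v191 (x1 x2 : ℝ) : ℝ := v0 x1 x2 * v130 x1 x2
theorem h191 (h : In b E x1 x2) : Enc S E (t191 b) (v191 x1 x2) := enc_mul hS (h0 h) (h130 h)

def t192 (b : Bx) : TM := tneg (t191 b)
noncomputable def v192 (x1 x2 : ℝ) : ℝ := -(v191 x1 x2)
theorem h192 (h : In b E x1 x2) : Enc S E (t192 b) (v192 x1 x2) := enc_neg (h191 h)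

def t193 (b : Bx) : TM := tsub (t192 b) (t40 b)
noncomputable def v193 (x1 x2 : ℝ) : ℝ := v192 x1 x2 - v40 x1 x2
theorem h193 (h : In b E x1 x2) : Enc S E (t193 b) (v193 x1 x2) := enc_sub (h192 h) (h40 h)

def t194 (b : Bx) : TM := tsub (t3 b) (t33 b)
noncomputable def v194 (x1 x2 : ℝ) : ℝ := v3 x1 x2 - v33 x1 x2
theorem h194 (h : In b E x1 x2) : Enc S E (t194 b) (v194 x1 x2) := enc_sub (h3 h) (h33 h)

def t195 (b : Bx) : TM := qw_t (t0 b) (t1 b) (t194 b) (t147 b) (t183 b) (t190 b) (t193 b)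
noncomputable def v195 (x1 x2 : ℝ) : ℝ := qw_v (v0 x1 x2) (v1 x1 x2) (v194 x1 x2) (v147 x1 x2) (v183 x1 x2) (v190 x1 x2) (v193 x1 x2)
theorem h195 (h : In b E x1 x2) : Enc S E (t195 b) (v195 x1 x2) := qw_enc (h0 h) (h1 h) (h194 h) (h147 h) (h183 h) (h190 h) (h193 h)

def t196 (b : Bx) : TM := tscale 1 4 (t2 b)
noncomputable def v196 (x1 x2 : ℝ) : ℝ := ((1 : ℕ) : ℝ) / ((4 : ℕ) : ℝ) * v2 x1 x2
theorem h196 (h : In b E x1 x2) : Enc S E (t196 b) (v196 x1 x2) := enc_scale 1 (by norm_num) (h2 h)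

def t198 (b : Bx) : TM := tsub (t0 b) (t196 b)
noncomputable def v198 (x1 x2 : ℝ) : ℝ := v0 x1 x2 - v196 x1 x2
theorem h198 (h : In b E x1 x2) : Enc S E (t198 b) (v198 x1 x2) := enc_sub (h0 h) (h196 h)

def t200 (b : Bx) : TM := tsub (t1 b) (t196 b)
noncomputable def v200 (x1 x2 : ℝ) : ℝ := v1 x1 x2 - v196 x1 x2
theorem h200 (h : In b E x1 x2) : Enc S E (t200 b) (v200 x1 x2) := enc_sub (h1 h) (h196 h)

def t202 (b : Bx) : TM := tsub (t196 b) (t33 b)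
noncomputable def v202 (x1 x2 : ℝ) : ℝ := v196 x1 x2 - v33 x1 x2
theorem h202 (h : In b E x1 x2) : Enc S E (t202 b) (v202 x1 x2) := enc_sub (h196 h) (h33 h)

def t203 (_b : Bx) : TM := tconst (Nat.div (Nat.mul 1 S) 16) 0 1
noncomputable def v203 (_x1 _x2 : ℝ) : ℝ := ((1 : ℕ) : ℝ) / ((16 : ℕ) : ℝ)
theorem h203 (_h : In b E x1 x2) : Enc S E (t203 b) (v203 x1 x2) := enc_rat E 1 (by norm_num)

def t204 (b : Bx) : TM := tsub (t25 b) (t203 b)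
noncomputable def v204 (x1 x2 : ℝ) : ℝ := v25 x1 x2 - v203 x1 x2
theorem h204 (h : In b E x1 x2) : Enc S E (t204 b) (v204 x1 x2) := enc_sub (h25 h) (h203 h)

def t205 (b : Bx) : TM := tsub (t19 b) (t1 b)
noncomputable def v205 (x1 x2 : ℝ) : ℝ := v19 x1 x2 - v1 x1 x2
theorem h205 (h : In b E x1 x2) : Enc S E (t205 b) (v205 x1 x2) := enc_sub (h19 h) (h1 h)

def t206 (b : Bx) : TM := tsub (t205 b) (t203 b)
noncomputable def v206 (x1 x2 : ℝ) : ℝ := v205 x1 x2 - v203 x1 x2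
theorem h206 (h : In b E x1 x2) : Enc S E (t206 b) (v206 x1 x2) := enc_sub (h205 h) (h203 h)

def t207 (b : Bx) : TM := tsub (t33 b) (t2 b)
noncomputable def v207 (x1 x2 : ℝ) : ℝ := v33 x1 x2 - v2 x1 x2
theorem h207 (h : In b E x1 x2) : Enc S E (t207 b) (v207 x1 x2) := enc_sub (h33 h) (h2 h)

def t208 (b : Bx) : TM := tsub (t5 b) (t52 b)
noncomputable def v208 (x1 x2 : ℝ) : ℝ := v5 x1 x2 - v52 x1 x2
theorem h208 (h : In b E x1 x2) : Enc S E (t208 b) (v208 x1 x2) := enc_sub (h5 h) (h52 h)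

def t209 (b : Bx) : TM := tadd (t138 b) (t9 b)
noncomputable def v209 (x1 x2 : ℝ) : ℝ := v138 x1 x2 + v9 x1 x2
theorem h209 (h : In b E x1 x2) : Enc S E (t209 b) (v209 x1 x2) := enc_add (h138 h) (h9 h)

def t210 (b : Bx) : TM := tneg (t209 b)
noncomputable def v210 (x1 x2 : ℝ) : ℝ := -(v209 x1 x2)
theorem h210 (h : In b E x1 x2) : Enc S E (t210 b) (v210 x1 x2) := enc_neg (h209 h)

def g0 (b : Bx) : Bool := and (pos (t71 b)) (and (pos (t28 b)) (and (pos (t59 b)) (and (pos (t74 b)) (and (pos (t89 b)) (and (pos (t84 b)) (and (pos (t107 b)) (and (pos (t119 b)) (and (pos (t121 b)) (and (pos (t46 b)) (and (pos (t170 b)) (and (pos (t38 b)) (or (pos (t205 b)) (pos (t195 b))))))))))))))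

def l0 (b : Bx) : Nat := cond (g0 b) 0 (pickb 1 (t195 b) b)

def P0 (x1 x2 : ℝ) : Prop := 0 < v71 x1 x2 ∧ 0 < v28 x1 x2 ∧ 0 < v59 x1 x2 ∧ 0 < v74 x1 x2 ∧ 0 < v89 x1 x2 ∧ 0 < v84 x1 x2 ∧ 0 < v107 x1 x2 ∧ 0 < v119 x1 x2 ∧ 0 < v121 x1 x2 ∧ 0 < v46 x1 x2 ∧ 0 < v170 x1 x2 ∧ 0 < v38 x1 x2 ∧ (0 < v205 x1 x2 ∨ 0 < v195 x1 x2)

theorem l0_sound (h : In b E x1 x2) (e : l0 b = 0) : P0 x1 x2 := by
  have e1 : g0 b = true := by
    rcases e2 : g0 b with _ | _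
    · unfold l0 at e; rw [e2, cond_false] at e; exact absurd e (pickb_ne _ _ _)
    · rfl
  exact ⟨pos_sound hS (h71 h) (Bool.and_eq_true_iff.mp e1).1, ⟨pos_sound hS (h28 h) (Bool.and_eq_true_iff.mp (Bool.and_eq_true_iff.mp e1).2).1, ⟨pos_sound hS (h59 h) (Bool.and_eq_true_iff.mp (Bool.and_eq_true_iff.mp (Bool.and_eq_true_iff.mp e1).2).2).1, ⟨pos_sound hS (h74 h) (Bool.and_eq_true_iff.mp (Bool.and_eq_true_iff.mp (Bool.and_eq_true_iff.mp (Bool.and_eq_true_iff.mp e1).2).2).2).1, ⟨pos_sound hS (h89 h) (Bool.and_eq_true_iff.mp (Bool.and_eq_true_iff.mp (Bool.and_eq_true_iff.mp (Bool.and_eq_true_iff.mp (Bool.and_eq_true_iff.mp e1).2).2).2).2).1, ⟨pos_sound hS (h84 h) (Bool.and_eq_true_iff.mp (Bool.and_eq_true_iff.mp (Bool.and_eq_true_iff.mp (Bool.and_eq_true_iff.mp (Bool.and_eq_true_iff.mp (Bool.and_eq_true_iff.mp e1).2).2).2).2).2).1, ⟨pos_sound hS (h107 h) (Bool.and_eq_true_iff.mp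 (Bool.and_eq_true_iff.mp (Bool.and_eq_true_iff.mp (Bool.and_eq_true_iff.mp (Bool.and_eq_true_iff.mp (Bool.and_eq_true_iff.mp (Bool.and_eq_true_iff.mp e1).2).2).2).2).2).2).1, ⟨pos_sound hS (h119 h) (Bool.and_eq_true_iff.mp (Bool.and_eq_true_iff.mp (Bool.and_eq_true_iff.mp (Bool.and_eq_true_iff.mp (Bool.and_eq_true_iff.mp (Bool.and_eq_true_iff.mp (Bool.and_eq_true_iff.mp (Bool.and_eq_true_iff.mp e1).2).2).2).2).2).2).2).1, ⟨pos_sound hS (h121 h) (Bool.and_eq_true_iff.mp (Bool.and_eq_true_iff.mp (Bool.and_eq_true_iff.mp (Bool.and_eq_true_iff.mp (Bool.and_eq_true_iff.mp (Bool.and_eq_true_iff.mp (Bool.and_eq_true_iff.mp (Bool.and_eq_true_iff.mp (Bool.and_eq_true_iff.mp e1).2).2).2).2).2).2).2).2).1, ⟨pos_sound hS (h46 h) (Bool.and_eq_true_iff.mp (Bool.and_eq_true_iff.mp (Bool.and_eq_true_iff.mp (Bool.and_eq_true_iff.mp (Bool.and_eq_true_iff.mp (Bool.and_eq_true_iff.mp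 (Bool.and_eq_true_iff.mp (Bool.and_eq_true_iff.mp (Bool.and_eq_true_iff.mp (Bool.and_eq_true_iff.mp e1).2).2).2).2).2).2).2).2).2).1, ⟨pos_sound hS (h170 h) (Bool.and_eq_true_iff.mp (Bool.and_eq_true_iff.mp (Bool.and_eq_true_iff.mp (Bool.and_eq_true_iff.mp (Bool.and_eq_true_iff.mp (Bool.and_eq_true_iff.mp (Bool.and_eq_true_iff.mp (Bool.and_eq_true_iff.mp (Bool.and_eq_true_iff.mp (Bool.and_eq_true_iff.mp (Bool.and_eq_true_iff.mp e1).2).2).2).2).2).2).2).2).2).2).1, ⟨pos_sound hS (h38 h) (Bool.and_eq_true_iff.mp (Bool.and_eq_true_iff.mp (Bool.and_eq_true_iff.mp (Bool.and_eq_true_iff.mp (Bool.and_eq_true_iff.mp (Bool.and_eq_true_iff.mp (Bool.and_eq_true_iff.mp (Bool.and_eq_true_iff.mp (Bool.and_eq_true_iff.mp (Bool.and_eq_true_iff.mp (Bool.and_eq_true_iff.mp (Bool.and_eq_true_iff.mp e1).2).2).2).2).2).2).2).2).2).2).2).1, ((Bool.or_eq_true_iff.mp (Bool.and_eq_true_iff.mp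 (Bool.and_eq_true_iff.mp (Bool.and_eq_true_iff.mp (Bool.and_eq_true_iff.mp (Bool.and_eq_true_iff.mp (Bool.and_eq_true_iff.mp (Bool.and_eq_true_iff.mp (Bool.and_eq_true_iff.mp (Bool.and_eq_true_iff.mp (Bool.and_eq_true_iff.mp (Bool.and_eq_true_iff.mp (Bool.and_eq_true_iff.mp e1).2).2).2).2).2).2).2).2).2).2).2).2).imp (fun a => pos_sound hS (h205 h) a) (fun a => pos_sound hS (h195 h) a))⟩⟩⟩⟩⟩⟩⟩⟩⟩⟩⟩⟩

def g1 (b : Bx) : Bool := or (pos (t198 b)) (or (pos (t200 b)) (or (pos (t202 b)) (or (pos (t149 b)) (or (pos (t204 b)) (or (pos (t206 b)) (or (pos (t207 b)) (or (pos (t208 b)) (pos (t210 b)))))))))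

def l1 (b : Bx) : Nat := cond (g1 b) 0 (l0 b)

def P1 (x1 x2 : ℝ) : Prop := (0 < v198 x1 x2 ∨ 0 < v200 x1 x2 ∨ 0 < v202 x1 x2 ∨ 0 < v149 x1 x2 ∨ 0 < v204 x1 x2 ∨ 0 < v206 x1 x2 ∨ 0 < v207 x1 x2 ∨ 0 < v208 x1 x2 ∨ 0 < v210 x1 x2) ∨ (P0 x1 x2)

theorem l1_sound (h : In b E x1 x2) (e : l1 b = 0) : P1 x1 x2 := by
  unfold l1 at e
  rcases e1 : g1 b with _ | _
  · rw [e1, cond_false] at e
    have z0 : l0 b = 0 := e
    exact Or.inr (l0_sound h z0)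
  · exact Or.inl (((Bool.or_eq_true_iff.mp e1).imp (fun a => pos_sound hS (h198 h) a) (fun a => ((Bool.or_eq_true_iff.mp a).imp (fun a => pos_sound hS (h200 h) a) (fun a => ((Bool.or_eq_true_iff.mp a).imp (fun a => pos_sound hS (h202 h) a) (fun a => ((Bool.or_eq_true_iff.mp a).imp (fun a => pos_sound hS (h149 h) a) (fun a => ((Bool.or_eq_true_iff.mp a).imp (fun a => pos_sound hS (h204 h) a) (fun a => ((Bool.or_eq_true_iff.mp a).imp (fun a => pos_sound hS (h206 h) a) (fun a => ((Bool.or_eq_true_iff.mp a).imp (fun a => pos_sound hS (h207 h) a) (fun a => ((Bool.or_eq_true_iff.mp a).imp (fun a => pos_sound hS (h208 h) a) (fun a => pos_sound hS (h210 h) a)))))))))))))))))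

def f (b : Bx) : Nat := l1 b

/-- the statement -/
def Q (x1 x2 : ℝ) : Prop := P1 x1 x2

theorem f_sound (b : Bx) (hb : f b = 0) (x1 x2 : ℝ) (hm : Mem S b x1 x2) : Q x1 x2 := by
  obtain ⟨E, h⟩ := pt_of_mem hm
  have h : In b E x1 x2 := h
  unfold f at hb
  have e := hb
  have z1 : l1 b = 0 := e
  exact (l1_sound h z1)

/-- the box -/
def b0 : Bx := ⟨232471924, 0, 232471926, 232471924, 0, 232471926⟩

theorem chk_all {n : ℕ} {b : Bx} (h : chk f n b = true) (x1 x2 : ℝ) (hm : Mem S b x1 x2) : Q x1 x2 :=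
  chk_sound (fun b hb x1 x2 hm => f_sound b hb x1 x2 hm) n b h x1 x2 hm


end Pool.Agent.Strip051.LB.ChA03V2_pm_001
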