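import Pool.Agent.Strip051.LB.ChA03V2_pm_001.Defs
import Pool.Agent.Strip051.LB.Slope
import Pool.Agent.Strip051.LB.Star
import Pool.Agent.Strip051.LB.Cf

/-! # LINE tight chart ChA03V2_pm_001: slopes -/

namespace Pool.Agent.Strip051.LB.ChA03V2_pm_001

open Pool.Agent.Strip051.LB Pool.Agent.Strip051.LB.Fn Pool.Agent.Strip051.LB.Fc Pool.Agent.StripNear

set_option maxRecDepth 100000
set_option linter.all false

noncomputable def v30 (x1 x2 : ℝ) : ℝ := -(v18 x1 x2)

noncomputable def v31 (x1 x2 : ℝ) : ℝ := -(v29 x1 x2)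

noncomputable def v53 (x1 x2 : ℝ) : ℝ := v52 x1 x2 - v5 x1 x2

noncomputable def v57 (x1 x2 : ℝ) : ℝ := v27 x1 x2 - v55 x1 x2

noncomputable def v58 (x1 x2 : ℝ) : ℝ := -(v56 x1 x2)

noncomputable def v62 (x1 x2 : ℝ) : ℝ := -(v61 x1 x2)

noncomputable def v64 (x1 x2 : ℝ) : ℝ := (v63 x1 x2) ^ 2

noncomputable def v68 (x1 x2 : ℝ) : ℝ := (v67 x1 x2) ^ 2

noncomputable def v70 (x1 x2 : ℝ) : ℝ := v64 x1 x2 + v68 x1 x2

noncomputable def v72 (x1 x2 : ℝ) : ℝ := v70 x1 x2 - v5 x1 x2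

noncomputable def v87 (x1 x2 : ℝ) : ℝ := v5 x1 x2 - v68 x1 x2

noncomputable def v88 (x1 x2 : ℝ) : ℝ := -(v69 x1 x2)

noncomputable def v92 (x1 x2 : ℝ) : ℝ := -(v91 x1 x2)

noncomputable def v95 (x1 x2 : ℝ) : ℝ := -(v94 x1 x2)

noncomputable def v112 (x1 x2 : ℝ) : ℝ := -(v111 x1 x2)

noncomputable def v113 (x1 x2 : ℝ) : ℝ := v100 x1 x2 * v109 x1 x2

noncomputable def v125 (x1 x2 : ℝ) : ℝ := -(v124 x1 x2)

noncomputable def v126 (x1 x2 : ℝ) : ℝ := -(v113 x1 x2)

noncomputable def v131 (x1 x2 : ℝ) : ℝ := -(v130 x1 x2)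

noncomputable def v139 (x1 x2 : ℝ) : ℝ := v7 x1 x2 * v19 x1 x2

noncomputable def v140 (x1 x2 : ℝ) : ℝ := v18 x1 x2 * v0 x1 x2

noncomputable def v141 (x1 x2 : ℝ) : ℝ := -(v140 x1 x2)

noncomputable def v143 (x1 x2 : ℝ) : ℝ := -(v142 x1 x2)

noncomputable def v144 (x1 x2 : ℝ) : ℝ := v139 x1 x2 - v140 x1 x2

noncomputable def v146 (x1 x2 : ℝ) : ℝ := v144 x1 x2 * v136 x1 x2

noncomputable def v148 (x1 x2 : ℝ) : ℝ := v146 x1 x2 - v9 x1 x2

noncomputable def v168 (x1 x2 : ℝ) : ℝ := -(v5 x1 x2)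

noncomputable def v176 (x1 x2 : ℝ) : ℝ := -(v175 x1 x2)

noncomputable def v177 (x1 x2 : ℝ) : ℝ := v162 x1 x2 * v173 x1 x2

structure Cx (x1 x2 : ℝ) : Prop where
  hc : v7 x1 x2 ^ 2 + x1 ^ 2 = 1
  p28 : 0 < v28 x1 x2
  p59 : 0 < v59 x1 x2
  p74 : 0 < v74 x1 x2
  p89 : 0 < v89 x1 x2
  p84 : 0 < v84 x1 x2
  p107 : 0 < v107 x1 x2
  p119 : 0 < v119 x1 x2
  p121 : 0 < v121 x1 x2
  p46 : 0 < v46 x1 x2
  p170 : 0 < v170 x1 x2
  p38 : 0 < v38 x1 x2

variable {x1 x2 : ℝ}

theorem s3q (x1 x2 : ℝ) : v2 x1 x2 ^ 2 = 3 := by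
  rw [v2]; exact s3sq

theorem s3ne (x1 x2 : ℝ) : v2 x1 x2 ≠ 0 := by
  rw [v2]; positivity

theorem s1 (c : Cx x1 x2) : v1 x1 x2 = v19 x1 x2 + v25 x1 x2 * v5 x1 x2 := by
  simp only [v1, v5, v25]
  (try push_cast)
  first | ring | grind

theorem s26 (c : Cx x1 x2) : v26 x1 x2 = v55 x1 x2 + v25 x1 x2 * v56 x1 x2 := by
  have a0 : (v1 x1 x2 + v19 x1 x2) * v1 x1 x2 = (v1 x1 x2 + v19 x1 x2) * (v19 x1 x2 + v25 x1 x2 * v5 x1 x2) := congrArg (fun z => (v1 x1 x2 + v19 x1 x2) * z) (s1 c)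
  try simp only [v1, v5, v25, v26, v55, v56] at a0
  simp only [v1, v5, v25, v26, v55, v56]
  (try push_cast at a0 ⊢)
  first | linear_combination a0 | ring | grind

theorem s28 (c : Cx x1 x2) : v28 x1 x2 = v57 x1 x2 + v25 x1 x2 * v58 x1 x2 := by
  have a1 := s26 c
  try simp only [v1, v25, v27, v28, v56, v57, v58] at a1
  simp only [v1, v25, v27, v28, v56, v57, v58]
  (try push_cast at a1 ⊢)
  first | linear_combination -a1 | ring | grind

theorem q29 (c : Cx x1 x2) : v57 x1 x2 = v30 x1 x2 ^ 2 := by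
  have hc := c.hc
  have h3 := s3q x1 x2
  simp only [v0, v3, v10, v11, v12, v13, v14, v16, v17, v18, v19, v27, v30, v55, v57] at hc ⊢
  push_cast at hc ⊢
  grind

theorem s29 (c : Cx x1 x2) : v29 x1 x2 = v30 x1 x2 + v25 x1 x2 * v62 x1 x2 := by
  have a0 := s28 c
  have e : 0 < Real.sqrt (v28 x1 x2) + v30 x1 x2 := by
    have e := c.p59
    simp only [v27, v28, v29, v30, v59] at e ⊢
    push_cast at e ⊢
    linarith
  have b := sl_sqrt a0 (q29 c) (le_of_lt c.p28) e
  clear a0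
  try simp only [v1, v25, v27, v28, v29, v30, v56, v57, v58, v59, v60, v61, v62] at b
  simp only [v1, v25, v27, v28, v29, v30, v56, v57, v58, v59, v60, v61, v62]
  (try push_cast at b ⊢)
  first | linear_combination b | ring | grind

theorem s32 (c : Cx x1 x2) : v32 x1 x2 = v63 x1 x2 + v25 x1 x2 * v61 x1 x2 := by
  have a1 := s29 c
  try simp only [v1, v25, v30, v32, v62, v63] at a1
  simp only [v1, v25, v30, v32, v62, v63]
  (try push_cast at a1 ⊢)
  first | linear_combination -a1 | ring | grind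

theorem s33 (c : Cx x1 x2) : v33 x1 x2 = v67 x1 x2 + v25 x1 x2 * v5 x1 x2 := by
  have a1 := s1 c
  try simp only [v0, v1, v5, v25, v33, v67] at a1
  simp only [v0, v1, v5, v25, v33, v67]
  (try push_cast at a1 ⊢)
  first | linear_combination a1 | ring | grind

theorem s42 (c : Cx x1 x2) : v42 x1 x2 = v161 x1 x2 + v25 x1 x2 * v62 x1 x2 := by
  have a0 := s29 c
  try simp only [v1, v25, v30, v41, v42, v62, v161] at a0
  simp only [v1, v25, v30, v41, v42, v62, v161]
  (try push_cast at a0 ⊢)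
  first | linear_combination a0 | ring | grind

theorem s43 (c : Cx x1 x2) : v43 x1 x2 = v162 x1 x2 + v25 x1 x2 * v166 x1 x2 := by
  have a0 : (v42 x1 x2) * v26 x1 x2 = (v42 x1 x2) * (v55 x1 x2 + v25 x1 x2 * v56 x1 x2) := congrArg (fun z => (v42 x1 x2) * z) (s26 c)
  have a1 : (v55 x1 x2) * v42 x1 x2 = (v55 x1 x2) * (v161 x1 x2 + v25 x1 x2 * v62 x1 x2) := congrArg (fun z => (v55 x1 x2) * z) (s42 c)
  try simp only [v1, v25, v41, v42, v43, v56, v62, v161, v162, v163, v164, v166] at a0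
  try simp only [v1, v25, v41, v42, v43, v56, v62, v161, v162, v163, v164, v166] at a1
  simp only [v1, v25, v41, v42, v43, v56, v62, v161, v162, v163, v164, v166]
  (try push_cast at a0 a1 ⊢)
  first | linear_combination a0 + a1 | ring | grind

theorem s44 (c : Cx x1 x2) : v44 x1 x2 = v167 x1 x2 + v25 x1 x2 * v168 x1 x2 := by
  have a1 := s1 c
  try simp only [v1, v2, v3, v5, v25, v44, v167, v168] at a1
  simp only [v1, v2, v3, v5, v25, v44, v167, v168]
  (try push_cast at a1 ⊢)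
  first | linear_combination -a1 | ring | grind

theorem s45 (c : Cx x1 x2) : v45 x1 x2 = v169 x1 x2 + v25 x1 x2 * v5 x1 x2 := by
  have a1 := s1 c
  try simp only [v1, v2, v3, v5, v25, v45, v169] at a1
  simp only [v1, v2, v3, v5, v25, v45, v169]
  (try push_cast at a1 ⊢)
  first | linear_combination a1 | ring | grind

theorem s46 (c : Cx x1 x2) : v46 x1 x2 = v170 x1 x2 + v25 x1 x2 * v172 x1 x2 := by
  have a0 : (v45 x1 x2) * v44 x1 x2 = (v45 x1 x2) * (v167 x1 x2 + v25 x1 x2 * v168 x1 x2) := congrArg (fun z => (v45 x1 x2) * z) (s44 c)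
  have a1 : (v167 x1 x2) * v45 x1 x2 = (v167 x1 x2) * (v169 x1 x2 + v25 x1 x2 * v5 x1 x2) := congrArg (fun z => (v167 x1 x2) * z) (s45 c)
  try simp only [v1, v2, v3, v5, v25, v44, v45, v46, v167, v168, v169, v170, v172] at a0
  try simp only [v1, v2, v3, v5, v25, v44, v45, v46, v167, v168, v169, v170, v172] at a1
  simp only [v1, v2, v3, v5, v25, v44, v45, v46, v167, v168, v169, v170, v172]
  (try push_cast at a0 a1 ⊢)
  first | linear_combination a0 + a1 | ring | grind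

theorem s47 (c : Cx x1 x2) : v47 x1 x2 = v173 x1 x2 + v25 x1 x2 * v176 x1 x2 := by
  have a0 := s46 c
  have b := sl_inv a0 (c.p46).ne' (c.p170).ne'
  clear a0
  try simp only [v1, v2, v3, v25, v45, v47, v167, v172, v173, v174, v175, v176] at b
  simp only [v1, v2, v3, v25, v45, v47, v167, v172, v173, v174, v175, v176]
  (try push_cast at b ⊢)
  first | linear_combination b | ring | grind

theorem s48 (c : Cx x1 x2) : v48 x1 x2 = v177 x1 x2 + v25 x1 x2 * v181 x1 x2 := by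
  have a0 : (v47 x1 x2) * v43 x1 x2 = (v47 x1 x2) * (v162 x1 x2 + v25 x1 x2 * v166 x1 x2) := congrArg (fun z => (v47 x1 x2) * z) (s43 c)
  have a1 : (v162 x1 x2) * v47 x1 x2 = (v162 x1 x2) * (v173 x1 x2 + v25 x1 x2 * v176 x1 x2) := congrArg (fun z => (v162 x1 x2) * z) (s47 c)
  try simp only [v1, v25, v48, v166, v176, v177, v178, v179, v181] at a0
  try simp only [v1, v25, v48, v166, v176, v177, v178, v179, v181] at a1
  simp only [v1, v25, v48, v166, v176, v177, v178, v179, v181]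
  (try push_cast at a0 a1 ⊢)
  first | linear_combination a0 + a1 | ring | grind

theorem s50 (c : Cx x1 x2) : v50 x1 x2 = v64 x1 x2 + v25 x1 x2 * v66 x1 x2 := by
  have a0 : (v32 x1 x2 + v63 x1 x2) * v32 x1 x2 = (v32 x1 x2 + v63 x1 x2) * (v63 x1 x2 + v25 x1 x2 * v61 x1 x2) := congrArg (fun z => (v32 x1 x2 + v63 x1 x2) * z) (s32 c)
  try simp only [v1, v25, v32, v50, v63, v64, v65, v66] at a0
  simp only [v1, v25, v32, v50, v63, v64, v65, v66]
  (try push_cast at a0 ⊢)
  first | linear_combination a0 | ring | grind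

theorem s51 (c : Cx x1 x2) : v51 x1 x2 = v68 x1 x2 + v25 x1 x2 * v69 x1 x2 := by
  have a0 : (v33 x1 x2 + v67 x1 x2) * v33 x1 x2 = (v33 x1 x2 + v67 x1 x2) * (v67 x1 x2 + v25 x1 x2 * v5 x1 x2) := congrArg (fun z => (v33 x1 x2 + v67 x1 x2) * z) (s33 c)
  try simp only [v0, v1, v5, v25, v33, v51, v67, v68, v69] at a0
  simp only [v0, v1, v5, v25, v33, v51, v67, v68, v69]
  (try push_cast at a0 ⊢)
  first | linear_combination a0 | ring | grind

theorem s52 (c : Cx x1 x2) : v52 x1 x2 = v70 x1 x2 + v25 x1 x2 * v71 x1 x2 := by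
  have a0 := s50 c
  have a1 := s51 c
  try simp only [v0, v1, v25, v33, v52, v67, v69, v70, v71] at a0
  try simp only [v0, v1, v25, v33, v52, v67, v69, v70, v71] at a1
  simp only [v0, v1, v25, v33, v52, v67, v69, v70, v71]
  (try push_cast at a0 a1 ⊢)
  first | linear_combination a0 + a1 | ring | grind

theorem s53 (c : Cx x1 x2) : v53 x1 x2 = v72 x1 x2 + v25 x1 x2 * v71 x1 x2 := by
  have a0 := s52 c
  try simp only [v0, v1, v5, v25, v33, v52, v53, v67, v69, v70, v71, v72] at a0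
  simp only [v0, v1, v5, v25, v33, v52, v53, v67, v69, v70, v71, v72]
  (try push_cast at a0 ⊢)
  first | linear_combination a0 | ring | grind

theorem s74 (c : Cx x1 x2) : v74 x1 x2 = v87 x1 x2 + v25 x1 x2 * v88 x1 x2 := by
  have a1 := s51 c
  try simp only [v0, v1, v5, v25, v33, v67, v69, v74, v87, v88] at a1
  simp only [v0, v1, v5, v25, v33, v67, v69, v74, v87, v88]
  (try push_cast at a1 ⊢)
  first | linear_combination -a1 | ring | grind

theorem q75 (c : Cx x1 x2) : v87 x1 x2 = v76 x1 x2 ^ 2 := by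
  have hc := c.hc
  have h3 := s3q x1 x2
  simp only [v0, v3, v5, v14, v16, v17, v19, v67, v68, v76, v87] at hc ⊢
  push_cast at hc ⊢
  grind

theorem s75 (c : Cx x1 x2) : v75 x1 x2 = v76 x1 x2 + v25 x1 x2 * v92 x1 x2 := by
  have a0 := s74 c
  have e : 0 < Real.sqrt (v74 x1 x2) + v76 x1 x2 := by
    have e := c.p89
    simp only [v5, v16, v74, v75, v76, v89] at e ⊢
    push_cast at e ⊢
    linarith
  have b := sl_sqrt a0 (q75 c) (le_of_lt c.p74) e
  clear a0
  try simp only [v0, v1, v5, v16, v25, v33, v67, v69, v74, v75, v76, v87, v88, v89, v90, v91, v92] at b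
  simp only [v0, v1, v5, v16, v25, v33, v67, v69, v74, v75, v76, v87, v88, v89, v90, v91, v92]
  (try push_cast at b ⊢)
  first | linear_combination b | ring | grind

theorem s77 (c : Cx x1 x2) : v77 x1 x2 = v93 x1 x2 + v25 x1 x2 * v95 x1 x2 := by
  have a0 := s75 c
  try simp only [v1, v16, v25, v76, v77, v92, v93, v94, v95] at a0
  simp only [v1, v16, v25, v76, v77, v92, v93, v94, v95]
  (try push_cast at a0 ⊢)
  first | linear_combination (2 : ℝ) * a0 | ring | grind

theorem s78 (c : Cx x1 x2) : v78 x1 x2 = v96 x1 x2 + v25 x1 x2 * v95 x1 x2 := by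
  have a1 := s77 c
  try simp only [v1, v5, v16, v25, v76, v77, v78, v93, v94, v95, v96] at a1
  simp only [v1, v5, v16, v25, v76, v77, v78, v93, v94, v95, v96]
  (try push_cast at a1 ⊢)
  first | linear_combination a1 | ring | grind

theorem s79 (c : Cx x1 x2) : v79 x1 x2 = v97 x1 x2 + v25 x1 x2 * v2 x1 x2 := by
  have a1 : (v2 x1 x2) * v33 x1 x2 = (v2 x1 x2) * (v67 x1 x2 + v25 x1 x2 * v5 x1 x2) := congrArg (fun z => (v2 x1 x2) * z) (s33 c)
  try simp only [v0, v1, v2, v5, v25, v33, v67, v79, v97] at a1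
  simp only [v0, v1, v2, v5, v25, v33, v67, v79, v97]
  (try push_cast at a1 ⊢)
  first | linear_combination a1 | ring | grind

theorem s80 (c : Cx x1 x2) : v80 x1 x2 = v98 x1 x2 + v25 x1 x2 * v99 x1 x2 := by
  have a0 := s79 c
  have a1 := s75 c
  try simp only [v1, v2, v16, v25, v76, v80, v92, v98, v99] at a0
  try simp only [v1, v2, v16, v25, v76, v80, v92, v98, v99] at a1
  simp only [v1, v2, v16, v25, v76, v80, v92, v98, v99]
  (try push_cast at a0 a1 ⊢)
  first | linear_combination a0 - a1 | ring | grind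

theorem s81 (c : Cx x1 x2) : v81 x1 x2 = v100 x1 x2 + v25 x1 x2 * v104 x1 x2 := by
  have a0 : (v80 x1 x2) * v78 x1 x2 = (v80 x1 x2) * (v96 x1 x2 + v25 x1 x2 * v95 x1 x2) := congrArg (fun z => (v80 x1 x2) * z) (s78 c)
  have a1 : (v96 x1 x2) * v80 x1 x2 = (v96 x1 x2) * (v98 x1 x2 + v25 x1 x2 * v99 x1 x2) := congrArg (fun z => (v96 x1 x2) * z) (s80 c)
  try simp only [v1, v2, v5, v16, v25, v76, v77, v78, v80, v81, v93, v94, v95, v96, v98, v99, v100, v101, v103, v104] at a0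
  try simp only [v1, v2, v5, v16, v25, v76, v77, v78, v80, v81, v93, v94, v95, v96, v98, v99, v100, v101, v103, v104] at a1
  simp only [v1, v2, v5, v16, v25, v76, v77, v78, v80, v81, v93, v94, v95, v96, v98, v99, v100, v101, v103, v104]
  (try push_cast at a0 a1 ⊢)
  first | linear_combination a0 + a1 | ring | grind

theorem s82 (c : Cx x1 x2) : v82 x1 x2 = v105 x1 x2 + v25 x1 x2 * v2 x1 x2 := by
  have a1 := s79 c
  try simp only [v1, v2, v5, v25, v82, v105] at a1
  simp only [v1, v2, v5, v25, v82, v105]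
  (try push_cast at a1 ⊢)
  first | linear_combination a1 | ring | grind

theorem s83 (c : Cx x1 x2) : v83 x1 x2 = v106 x1 x2 + v25 x1 x2 * v99 x1 x2 := by
  have a0 := s82 c
  have a1 := s75 c
  try simp only [v1, v2, v5, v16, v25, v76, v82, v83, v92, v99, v105, v106] at a0
  try simp only [v1, v2, v5, v16, v25, v76, v82, v83, v92, v99, v105, v106] at a1
  simp only [v1, v2, v5, v16, v25, v76, v82, v83, v92, v99, v105, v106]
  (try push_cast at a0 a1 ⊢)
  first | linear_combination a0 - a1 | ring | grind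

theorem s84 (c : Cx x1 x2) : v84 x1 x2 = v107 x1 x2 + v25 x1 x2 * v108 x1 x2 := by
  have a0 := s83 c
  try simp only [v1, v2, v5, v16, v25, v76, v82, v83, v84, v99, v105, v106, v107, v108] at a0
  simp only [v1, v2, v5, v16, v25, v76, v82, v83, v84, v99, v105, v106, v107, v108]
  (try push_cast at a0 ⊢)
  first | linear_combination (2 : ℝ) * a0 | ring | grind

theorem s85 (c : Cx x1 x2) : v85 x1 x2 = v109 x1 x2 + v25 x1 x2 * v112 x1 x2 := by
  have a0 := s84 c
  have b := sl_inv a0 (c.p84).ne' (c.p107).ne'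
  clear a0
  try simp only [v1, v2, v5, v16, v25, v76, v82, v83, v84, v85, v99, v105, v106, v107, v108, v109, v110, v111, v112] at b
  simp only [v1, v2, v5, v16, v25, v76, v82, v83, v84, v85, v99, v105, v106, v107, v108, v109, v110, v111, v112]
  (try push_cast at b ⊢)
  first | linear_combination b | ring | grind

theorem s86 (c : Cx x1 x2) : v86 x1 x2 = v113 x1 x2 + v25 x1 x2 * v117 x1 x2 := by
  have a0 : (v85 x1 x2) * v81 x1 x2 = (v85 x1 x2) * (v100 x1 x2 + v25 x1 x2 * v104 x1 x2) := congrArg (fun z => (v85 x1 x2) * z) (s81 c)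
  have a1 : (v100 x1 x2) * v85 x1 x2 = (v100 x1 x2) * (v109 x1 x2 + v25 x1 x2 * v112 x1 x2) := congrArg (fun z => (v100 x1 x2) * z) (s85 c)
  try simp only [v1, v25, v86, v104, v112, v113, v114, v115, v117] at a0
  try simp only [v1, v25, v86, v104, v112, v113, v114, v115, v117] at a1
  simp only [v1, v25, v86, v104, v112, v113, v114, v115, v117]
  (try push_cast at a0 a1 ⊢)
  first | linear_combination a0 + a1 | ring | grind

theorem s132 (c : Cx x1 x2) : v132 x1 x2 = v139 x1 x2 + v25 x1 x2 * v7 x1 x2 := by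
  have a1 : (v7 x1 x2) * v1 x1 x2 = (v7 x1 x2) * (v19 x1 x2 + v25 x1 x2 * v5 x1 x2) := congrArg (fun z => (v7 x1 x2) * z) (s1 c)
  try simp only [v1, v5, v25, v132, v139] at a1
  simp only [v1, v5, v25, v132, v139]
  (try push_cast at a1 ⊢)
  first | linear_combination a1 | ring | grind

theorem s133 (c : Cx x1 x2) : v133 x1 x2 = v141 x1 x2 + v25 x1 x2 * v143 x1 x2 := by
  have a0 : (v0 x1 x2) * v29 x1 x2 = (v0 x1 x2) * (v30 x1 x2 + v25 x1 x2 * v62 x1 x2) := congrArg (fun z => (v0 x1 x2) * z) (s29 c)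
  try simp only [v0, v1, v25, v30, v62, v133, v140, v141, v142, v143] at a0
  simp only [v0, v1, v25, v30, v62, v133, v140, v141, v142, v143]
  (try push_cast at a0 ⊢)
  first | linear_combination a0 | ring | grind

theorem s135 (c : Cx x1 x2) : v135 x1 x2 = v144 x1 x2 + v25 x1 x2 * v145 x1 x2 := by
  have a0 := s132 c
  have a1 := s133 c
  try simp only [v1, v25, v135, v141, v143, v144, v145] at a0
  try simp only [v1, v25, v135, v141, v143, v144, v145] at a1
  simp only [v1, v25, v135, v141, v143, v144, v145]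
  (try push_cast at a0 a1 ⊢)
  first | linear_combination a0 + a1 | ring | grind

theorem s137 (c : Cx x1 x2) : v137 x1 x2 = v146 x1 x2 + v25 x1 x2 * v147 x1 x2 := by
  have a0 : (v136 x1 x2) * v135 x1 x2 = (v136 x1 x2) * (v144 x1 x2 + v25 x1 x2 * v145 x1 x2) := congrArg (fun z => (v136 x1 x2) * z) (s135 c)
  try simp only [v1, v25, v135, v137, v144, v145, v146, v147] at a0
  simp only [v1, v25, v135, v137, v144, v145, v146, v147]
  (try push_cast at a0 ⊢)
  first | linear_combination a0 | ring | grind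

theorem s138 (c : Cx x1 x2) : v138 x1 x2 = v148 x1 x2 + v25 x1 x2 * v147 x1 x2 := by
  have a0 := s137 c
  try simp only [v1, v9, v25, v138, v148] at a0
  simp only [v1, v9, v25, v138, v148]
  (try push_cast at a0 ⊢)
  first | linear_combination a0 | ring | grind

theorem s149 (c : Cx x1 x2) : v149 x1 x2 = v184 x1 x2 + v25 x1 x2 * v5 x1 x2 := by
  have a0 := s33 c
  try simp only [v0, v1, v2, v3, v5, v25, v33, v67, v149, v184] at a0
  simp only [v0, v1, v2, v3, v5, v25, v33, v67, v149, v184]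
  (try push_cast at a0 ⊢)
  first | linear_combination a0 | ring | grind

theorem bD (c : Cx x1 x2) : v72 x1 x2 = 0 := by
  have hc := c.hc
  have h3 := s3q x1 x2
  simp only [v0, v3, v5, v10, v11, v12, v13, v14, v16, v17, v18, v19, v63, v64, v67, v68, v70, v72] at hc ⊢
  push_cast at hc ⊢
  grind

theorem sD (c : Cx x1 x2) : v53 x1 x2 = v25 x1 x2 * v71 x1 x2 := by
  have h := s53 c
  rw [bD c, zero_add] at h
  exact h

theorem s125 (c : Cx x1 x2) : v125 x1 x2 = v126 x1 x2 + v25 x1 x2 * v131 x1 x2 := by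
  have hA := s86 c
  have hd := sD c
  have hs := c.p119
  have hc : v75 x1 x2 ^ 2 = v74 x1 x2 := by
    rw [v75]; exact Real.sq_sqrt (le_of_lt c.p74)
  have hx : v73 x1 x2 - v75 x1 x2 = v53 x1 x2 * (v119 x1 x2)⁻¹ := by
    have g : v73 x1 x2 ^ 2 - v75 x1 x2 ^ 2 = v53 x1 x2 := by
      rw [hc]; simp only [v0, v1, v5, v32, v33, v50, v51, v52, v53, v73, v74, v119]; push_cast; ring
    have g3 : v119 x1 x2 = v73 x1 x2 + v75 x1 x2 := by
      simp only [v0, v1, v5, v32, v33, v50, v51, v52, v53, v73, v74, v119]; try push_cast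
      try ring
    have g2 : 0 < v73 x1 x2 + v75 x1 x2 := by rw [← g3]; exact hs
    rw [g3]; exact diff_of_sq g g2
  have hy : v118 x1 x2 * (v73 x1 x2 - v75 x1 x2) = v118 x1 x2 * (v53 x1 x2 * (v119 x1 x2)⁻¹) := congrArg (fun z => v118 x1 x2 * z) hx
  have hK : v118 x1 x2 * (v119 x1 x2)⁻¹ * v53 x1 x2 = v118 x1 x2 * (v119 x1 x2)⁻¹ * (v25 x1 x2 * v71 x1 x2) := congrArg (fun z => v118 x1 x2 * (v119 x1 x2)⁻¹ * z) hd
  try simp only [v0, v1, v5, v25, v33, v52, v53, v67, v69, v71, v73, v117, v119, v122, v123, v124, v125, v126, v127, v128, v129, v130, v131] at hA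
  try simp only [v0, v1, v5, v25, v33, v52, v53, v67, v69, v71, v73, v117, v119, v122, v123, v124, v125, v126, v127, v128, v129, v130, v131] at hy
  try simp only [v0, v1, v5, v25, v33, v52, v53, v67, v69, v71, v73, v117, v119, v122, v123, v124, v125, v126, v127, v128, v129, v130, v131] at hK
  simp only [v0, v1, v5, v25, v33, v52, v53, v67, v69, v71, v73, v117, v119, v122, v123, v124, v125, v126, v127, v128, v129, v130, v131]
  (try push_cast at hA hy hK ⊢)
  first | linear_combination -(hA + hy + hK) | grind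

theorem bE (c : Cx x1 x2) : v148 x1 x2 = 0 := by
  have hc := c.hc
  have h3 := s3q x1 x2
  have g0 : v2 x1 x2 ≠ 0 := s3ne x1 x2
  simp only [v0, v3, v9, v10, v11, v12, v13, v14, v16, v17, v18, v19, v136, v139, v140, v144, v146, v148] at hc ⊢
  push_cast at hc ⊢
  grind

theorem hE (c : Cx x1 x2) : v138 x1 x2 = v25 x1 x2 * v147 x1 x2 := by
  have h := s138 c
  rw [bE c, zero_add] at h
  exact h

theorem bC12 (c : Cx x1 x2) : v0 x1 x2 * v177 x1 x2 - v19 x1 x2 * v40 x1 x2 = 0 := by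
  have hc := c.hc
  have h3 := s3q x1 x2
  have g0 := (c.p38).ne'
  have g1 := (c.p170).ne'
  simp only [v0, v3, v5, v10, v11, v12, v13, v14, v16, v17, v18, v19, v34, v35, v36, v37, v38, v39, v40, v41, v55, v161, v162, v167, v169, v170, v173, v177] at hc g0 g1 ⊢
  push_cast at hc g0 g1 ⊢
  grind

theorem hC12 (c : Cx x1 x2) : v0 x1 x2 * v48 x1 x2 - v1 x1 x2 * v40 x1 x2 = v25 x1 x2 * v183 x1 x2 := by
  have a2 : v0 x1 x2 * v48 x1 x2 = v0 x1 x2 * (v177 x1 x2 + v25 x1 x2 * v181 x1 x2) := congrArg (fun z => v0 x1 x2 * z) (s48 c)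
  have a3 : v40 x1 x2 * v1 x1 x2 = v40 x1 x2 * (v19 x1 x2 + v25 x1 x2 * v5 x1 x2) := congrArg (fun z => v40 x1 x2 * z) (s1 c)
  have b := bC12 c
  try simp only [v0, v1, v5, v25, v181, v182, v183] at a2
  try simp only [v0, v1, v5, v25, v181, v182, v183] at a3
  try simp only [v0, v1, v5, v25, v181, v182, v183] at b
  simp only [v0, v1, v5, v25, v181, v182, v183]
  (try push_cast at a2 a3 b ⊢)
  first | linear_combination a2 - a3 + b | grind

theorem bC32 (c : Cx x1 x2) : v184 x1 x2 * v177 x1 x2 - v19 x1 x2 * v126 x1 x2 = 0 := by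
  have hc := c.hc
  have h3 := s3q x1 x2
  have g0 := (c.p107).ne'
  have g1 := (c.p170).ne'
  simp only [v0, v3, v5, v10, v11, v12, v13, v14, v16, v17, v18, v19, v41, v55, v67, v76, v93, v96, v97, v98, v100, v105, v106, v107, v109, v113, v126, v161, v162, v167, v169, v170, v173, v177, v184] at hc g0 g1 ⊢
  push_cast at hc g0 g1 ⊢
  grind

theorem hC32 (c : Cx x1 x2) : v149 x1 x2 * v48 x1 x2 - v1 x1 x2 * v125 x1 x2 = v25 x1 x2 * v190 x1 x2 := by
  have a1 : v48 x1 x2 * v149 x1 x2 = v48 x1 x2 * (v184 x1 x2 + v25 x1 x2 * v5 x1 x2) := congrArg (fun z => v48 x1 x2 * z) (s149 c)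
  have a2 : v184 x1 x2 * v48 x1 x2 = v184 x1 x2 * (v177 x1 x2 + v25 x1 x2 * v181 x1 x2) := congrArg (fun z => v184 x1 x2 * z) (s48 c)
  have a3 : v125 x1 x2 * v1 x1 x2 = v125 x1 x2 * (v19 x1 x2 + v25 x1 x2 * v5 x1 x2) := congrArg (fun z => v125 x1 x2 * z) (s1 c)
  have a4 : v19 x1 x2 * v125 x1 x2 = v19 x1 x2 * (v126 x1 x2 + v25 x1 x2 * v131 x1 x2) := congrArg (fun z => v19 x1 x2 * z) (s125 c)
  have b := bC32 c
  try simp only [v0, v1, v2, v3, v5, v25, v33, v67, v117, v124, v125, v126, v130, v131, v149, v181, v184, v185, v186, v187, v188, v190] at a1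
  try simp only [v0, v1, v2, v3, v5, v25, v33, v67, v117, v124, v125, v126, v130, v131, v149, v181, v184, v185, v186, v187, v188, v190] at a2
  try simp only [v0, v1, v2, v3, v5, v25, v33, v67, v117, v124, v125, v126, v130, v131, v149, v181, v184, v185, v186, v187, v188, v190] at a3
  try simp only [v0, v1, v2, v3, v5, v25, v33, v67, v117, v124, v125, v126, v130, v131, v149, v181, v184, v185, v186, v187, v188, v190] at a4
  try simp only [v0, v1, v2, v3, v5, v25, v33, v67, v117, v124, v125, v126, v130, v131, v149, v181, v184, v185, v186, v187, v188, v190] at b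
  simp only [v0, v1, v2, v3, v5, v25, v33, v67, v117, v124, v125, v126, v130, v131, v149, v181, v184, v185, v186, v187, v188, v190]
  (try push_cast at a1 a2 a3 a4 b ⊢)
  first | linear_combination a1 + a2 - a3 - a4 + b | grind

theorem bC13 (c : Cx x1 x2) : v0 x1 x2 * v126 x1 x2 - v184 x1 x2 * v40 x1 x2 = 0 := by
  have hc := c.hc
  have h3 := s3q x1 x2
  have g0 := (c.p38).ne'
  have g1 := (c.p107).ne'
  simp only [v0, v3, v5, v14, v16, v17, v19, v34, v35, v36, v37, v38, v39, v40, v67, v76, v93, v96, v97, v98, v100, v105, v106, v107, v109, v113, v126, v184] at hc g0 g1 ⊢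
  push_cast at hc g0 g1 ⊢
  grind

theorem hC13 (c : Cx x1 x2) : v0 x1 x2 * v125 x1 x2 - v149 x1 x2 * v40 x1 x2 = v25 x1 x2 * v193 x1 x2 := by
  have a2 : v0 x1 x2 * v125 x1 x2 = v0 x1 x2 * (v126 x1 x2 + v25 x1 x2 * v131 x1 x2) := congrArg (fun z => v0 x1 x2 * z) (s125 c)
  have a3 : v40 x1 x2 * v149 x1 x2 = v40 x1 x2 * (v184 x1 x2 + v25 x1 x2 * v5 x1 x2) := congrArg (fun z => v40 x1 x2 * z) (s149 c)
  have b := bC13 c
  try simp only [v0, v1, v2, v3, v5, v25, v33, v67, v117, v124, v125, v126, v130, v131, v149, v184, v191, v192, v193] at a2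
  try simp only [v0, v1, v2, v3, v5, v25, v33, v67, v117, v124, v125, v126, v130, v131, v149, v184, v191, v192, v193] at a3
  try simp only [v0, v1, v2, v3, v5, v25, v33, v67, v117, v124, v125, v126, v130, v131, v149, v184, v191, v192, v193] at b
  simp only [v0, v1, v2, v3, v5, v25, v33, v67, v117, v124, v125, v126, v130, v131, v149, v184, v191, v192, v193]
  (try push_cast at a2 a3 b ⊢)
  first | linear_combination a2 - a3 + b | grind

theorem core (c : Cx x1 x2) (hW : 0 ≤ v25 x1 x2) (hWQ : 0 ≤ v25 x1 x2 * v195 x1 x2) :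
    0 ≤ starw_v (v138 x1 x2) (v0 x1 x2) (v1 x1 x2) ((-v149 x1 x2)) ((-v40 x1 x2)) ((-v48 x1 x2)) (v125 x1 x2) := by
  have e1 : v1 x1 x2 * (-v40 x1 x2) - v0 x1 x2 * (-v48 x1 x2) = v25 x1 x2 * v183 x1 x2 := by linear_combination hC12 c
  have e2 : (-v149 x1 x2) * (-v48 x1 x2) - v1 x1 x2 * v125 x1 x2 = v25 x1 x2 * v190 x1 x2 := by linear_combination hC32 c
  have e3 : v0 x1 x2 * v125 x1 x2 - (-v149 x1 x2) * (-v40 x1 x2) = v25 x1 x2 * v193 x1 x2 := by linear_combination hC13 c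
  have f2 : (-v149 x1 x2) = v194 x1 x2 := by
    simp only [v0, v1, v2, v3, v33, v149, v194]
    try (push_cast; ring)
  rw [starw_eq hW (hE c) e1 e2 e3]
  rw [f2]
  exact hWQ

end Pool.Agent.Strip051.LB.ChA03V2_pm_001
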